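import Pool.Agent.D0H37.SP.Two

set_option autoImplicit false

/-!
Exponents `l₁ - 1` and `l₂ - 1` with primes `l₁` and `l₂`.
-/

open scoped Classical
open Finset

namespace Pool.Agent.D0H37.SP

open Pool.Agent.Results.MP_f02ea4_nt.FewWithKPrimes (sp sp_mul sp_pos)

theorem dvd_sp {r p l : ℕ} (hr : 1 ≤ r) (hp : p.Prime) (hl : l.Prime) (h : p ∣ sp r (l - 1)) :
    p = l ∨ p % l = 1 := by
  have : Fact p.Prime := ⟨hp⟩
  have hl1 : l - 1 + 1 = l := Nat.sub_add_cancel hl.one_lt.le
  have h1 : (sp r (l - 1) : ZMod p) = 0 := (ZMod.natCast_eq_zero_iff _ _).2 h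
  have h2 := congrArg (fun n : ℕ => (n : ZMod p)) (sp_mul r (l - 1) hr)
  simp only [Nat.cast_add, Nat.cast_mul, Nat.cast_pow, Nat.cast_one] at h2
  rw [h1, zero_mul, zero_add, hl1] at h2
  have h3 := orderOf_dvd_of_pow_eq_one h2.symm
  rcases (Nat.dvd_prime hl).1 h3 with h4 | h4
  · left
    rw [orderOf_eq_one_iff] at h4
    have h5 : (sp r (l - 1) : ZMod p) = (l : ZMod p) := by
      unfold sp
      rw [hl1]
      push_cast
      rw [h4]
      simp
    rw [h1] at h5
    exact (Nat.prime_dvd_prime_iff_eq hp hl).1 ((ZMod.natCast_eq_zero_iff _ _).1 h5.symm)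
  · right
    have h5 : (r : ZMod p) ≠ 0 := by
      intro h6
      rw [h6, zero_pow hl.ne_zero] at h2
      exact one_ne_zero h2
    have h6 := ZMod.orderOf_dvd_card_sub_one h5
    rw [h4] at h6
    obtain ⟨c, hc⟩ := h6
    have h7 : p = l * c + 1 := by
      have := hp.one_lt
      omega
    rw [h7, Nat.mul_add_mod]
    exact Nat.mod_eq_of_lt hl.one_lt

theorem l_dvd_sp {p l : ℕ} (hl : l.Prime) (h : p % l = 1) : l ∣ sp p (l - 1) := by
  have : Fact l.Prime := ⟨hl⟩
  have hl1 : l - 1 + 1 = l := Nat.sub_add_cancel hl.one_lt.le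
  rw [← ZMod.natCast_eq_zero_iff]
  have h1 : (p : ZMod l) = 1 := by
    have h2 : ((p % l : ℕ) : ZMod l) = (p : ZMod l) := ZMod.natCast_mod p l
    rw [← h2, h, Nat.cast_one]
  unfold sp
  rw [hl1]
  push_cast
  rw [h1]
  simp

theorem sig_eq {N : ℕ} (hN : N ≠ 0) :
    ∑ d ∈ N.divisors, d = ∏ p ∈ N.primeFactors, sp p (N.factorization p) :=
  Nat.sum_divisors hN

theorem pow_dvd_sig {N l : ℕ} (hN : N ≠ 0) (F : Finset ℕ) (hF : F ⊆ N.primeFactors)
    (h : ∀ p ∈ F, l ∣ sp p (N.factorization p)) : l ^ F.card ∣ ∑ d ∈ N.divisors, d := by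
  rw [sig_eq hN]
  refine dvd_trans ?_ (Finset.prod_dvd_prod_of_subset F N.primeFactors _ hF)
  rw [← Finset.prod_const]
  exact Finset.prod_dvd_prod_of_dvd _ _ h

/-- the prescribed exponents -/
noncomputable def ff (l₁ l₂ s p : ℕ) : ℕ :=
  if p % l₁ = 1 then l₂ - 1 else if p % l₂ = 1 then l₁ - 1 else
    if p = l₁ ∨ p = l₂ then 0 else s.factorization p

/-- the prescribed exponents before the special prime is known -/
noncomputable def f0 (l₁ p l₂ : ℕ) : ℕ := if p % l₁ = 1 then l₂ - 1 else l₁ - 1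

/-- the exceptional primes -/
noncomputable def XX (l₁ l₂ a b q N : ℕ) : Finset ℕ :=
  (N.primeFactors.erase q).filter fun p => p ∣ a * b ∨
    N.factorization p ≠ ff l₁ l₂ (sp q (N.factorization q)) p

section

variable {N a b q l₁ l₂ K : ℕ}

/-- the exponent of a prime which divides only `σ(q ^ α)` -/
theorem exact_exp (hl₁ : l₁.Prime) (hl₂ : l₂.Prime) (hb : 0 < b) (ha : 0 < a) (hN : N ≠ 0)
    (h : b * ∑ d ∈ N.divisors, d = a * N) (hqN : q ∣ N) (hq : q.Prime)
    (he : ∀ p ∈ N.primeFactors, p ≠ q → N.factorization p = l₁ - 1 ∨ N.factorization p = l₂ - 1)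
    {p : ℕ} (hp : p.Prime) (hpab : ¬ p ∣ a * b) (h1 : p % l₁ ≠ 1) (h2 : p % l₂ ≠ 1)
    (h3 : ¬ (p = l₁ ∨ p = l₂)) :
    N.factorization p = (sp q (N.factorization q)).factorization p := by
  have hqf : q ∈ N.primeFactors := Nat.mem_primeFactors.2 ⟨hq, hqN, hN⟩
  have h4 : ∑ d ∈ N.divisors, d = sp q (N.factorization q) *
      ∏ r ∈ N.primeFactors.erase q, sp r (N.factorization r) := by
    rw [sig_eq hN]
    exact (mul_prod_erase N.primeFactors (fun r => sp r (N.factorization r)) hqf).symm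
  have h5 : ¬ p ∣ ∏ r ∈ N.primeFactors.erase q, sp r (N.factorization r) := by
    intro hcon
    obtain ⟨r, hr, hr2⟩ := (Prime.dvd_finsetProd_iff hp.prime _).1 hcon
    rw [mem_erase] at hr
    have hr1 := (Nat.prime_of_mem_primeFactors hr.2).one_lt.le
    rcases he r hr.2 hr.1 with h6 | h6
    · rw [h6] at hr2
      rcases dvd_sp hr1 hp hl₁ hr2 with h7 | h7
      · exact h3 (Or.inl h7)
      · exact h1 h7
    · rw [h6] at hr2
      rcases dvd_sp hr1 hp hl₂ hr2 with h7 | h7
      · exact h3 (Or.inr h7)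
      · exact h2 h7
  have h6 : sp q (N.factorization q) ≠ 0 := (sp_pos _ _).ne'
  have h7 : ∏ r ∈ N.primeFactors.erase q, sp r (N.factorization r) ≠ 0 := by
    rw [prod_ne_zero_iff]
    exact fun r _ => (sp_pos _ _).ne'
  have h8 : (b * ∑ d ∈ N.divisors, d).factorization p = (a * N).factorization p := by rw [h]
  rw [h4, Nat.factorization_mul hb.ne' (Nat.mul_ne_zero h6 h7), Nat.factorization_mul h6 h7,
    Nat.factorization_mul ha.ne' hN, Finsupp.add_apply, Finsupp.add_apply, Finsupp.add_apply,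
    Nat.factorization_eq_zero_of_not_dvd h5,
    Nat.factorization_eq_zero_of_not_dvd (fun hd => hpab (Dvd.dvd.mul_left hd a)),
    Nat.factorization_eq_zero_of_not_dvd (fun hd => hpab (Dvd.dvd.mul_right hd b))] at h8
  omega

/-- the number of the exceptional primes -/
theorem card_XX (hl₁ : l₁.Prime) (hl₂ : l₂.Prime) (hb : 0 < b) (ha : 0 < a) (hN : N ≠ 0)
    (h : b * ∑ d ∈ N.divisors, d = a * N) (hqN : q ∣ N) (hq : q.Prime)
    (hK : ∀ p, N.factorization p ≤ K)
    (he : ∀ p ∈ N.primeFactors, p ≠ q → N.factorization p = l₁ - 1 ∨ N.factorization p = l₂ - 1) :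
    (XX l₁ l₂ a b q N).card ≤ (N.primeFactors.filter fun p => p ∣ a * b).card +
      ((a.factorization l₁ + K) + ((a.factorization l₂ + K) + 2)) := by
  have hbd : ∀ l : ℕ, l.Prime →
      (N.primeFactors.filter fun p => p % l = 1 ∧ N.factorization p = l - 1).card ≤
        a.factorization l + K := by
    intro l hl
    have h1 := pow_dvd_sig (l := l) hN
      (N.primeFactors.filter fun p => p % l = 1 ∧ N.factorization p = l - 1)
      (filter_subset _ _) (fun p hp => by
        rw [mem_filter] at hp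
        rw [hp.2.2]
        exact l_dvd_sp hl hp.2.1)
    have h2 : l ^ (N.primeFactors.filter fun p => p % l = 1 ∧ N.factorization p = l - 1).card ∣
        a * N := by
      rw [← h]
      exact Dvd.dvd.mul_left h1 b
    have h3 := (hl.pow_dvd_iff_le_factorization (Nat.mul_ne_zero ha.ne' hN)).1 h2
    rw [Nat.factorization_mul ha.ne' hN, Finsupp.add_apply] at h3
    have := hK l
    omega
  have hsub : XX l₁ l₂ a b q N ⊆ (N.primeFactors.filter fun p => p ∣ a * b) ∪
      ((N.primeFactors.filter fun p => p % l₁ = 1 ∧ N.factorization p = l₁ - 1) ∪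
      ((N.primeFactors.filter fun p => p % l₂ = 1 ∧ N.factorization p = l₂ - 1) ∪ {l₁, l₂})) := by
    intro p hp
    unfold XX at hp
    rw [mem_filter, mem_erase] at hp
    obtain ⟨⟨hpq, hpN⟩, hp2⟩ := hp
    have hpp := Nat.prime_of_mem_primeFactors hpN
    rw [mem_union, mem_union, mem_union]
    by_cases hab : p ∣ a * b
    · exact Or.inl (mem_filter.2 ⟨hpN, hab⟩)
    · right
      have hne : N.factorization p ≠ ff l₁ l₂ (sp q (N.factorization q)) p :=
        hp2.resolve_left hab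
      unfold ff at hne
      by_cases h1 : p % l₁ = 1
      · rw [if_pos h1] at hne
        left
        rw [mem_filter]
        exact ⟨hpN, h1, (he p hpN hpq).resolve_right hne⟩
      · right
        rw [if_neg h1] at hne
        by_cases h2 : p % l₂ = 1
        · rw [if_pos h2] at hne
          left
          rw [mem_filter]
          exact ⟨hpN, h2, (he p hpN hpq).resolve_left hne⟩
        · right
          rw [if_neg h2] at hne
          by_cases h3 : p = l₁ ∨ p = l₂
          · rw [mem_insert, mem_singleton]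
            exact h3
          · rw [if_neg h3] at hne
            exact absurd (exact_exp hl₁ hl₂ hb ha hN h hqN hq he hpp hab h1 h2 h3) hne
  refine (card_le_card hsub).trans ((card_union_le _ _).trans (Nat.add_le_add_left
    ((card_union_le _ _).trans (add_le_add (hbd l₁ hl₁)
      ((card_union_le _ _).trans (add_le_add (hbd l₂ hl₂) card_le_two)))) _))

/-- a known prime has the prescribed exponent -/
theorem known (hl₁ : l₁.Prime) (hl₂ : l₂.Prime) (hN : N ≠ 0) (hq : q.Prime)
    (he : ∀ p ∈ N.primeFactors, p ≠ q → N.factorization p = l₁ - 1 ∨ N.factorization p = l₂ - 1)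
    {A M : ℕ} (hNM : N = A * M) (hcop : A.Coprime M) (hqM : q ∣ M) {p : ℕ} (hp : p.Prime)
    (hpM : p ∣ M) (hpq : p ≠ q) (hpX : p ∉ XX l₁ l₂ a b q N)
    (hlt : (a * A).factorization p < (b * ∑ d ∈ A.divisors, d).factorization p) :
    N.factorization p = f0 l₁ p l₂ := by
  have hM0 : M ≠ 0 := by rintro rfl; simp at hNM; exact hN hNM
  have hA0 : A ≠ 0 := by rintro rfl; simp at hNM; exact hN hNM
  have hpN : p ∈ N.primeFactors :=
    Nat.mem_primeFactors.2 ⟨hp, by rw [hNM]; exact Dvd.dvd.mul_left hpM A, hN⟩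
  have h1 : ¬ (p ∣ a * b ∨ N.factorization p ≠ ff l₁ l₂ (sp q (N.factorization q)) p) := by
    intro hcon
    apply hpX
    unfold XX
    rw [mem_filter, mem_erase]
    exact ⟨⟨hpq, hpN⟩, hcon⟩
  push Not at h1
  obtain ⟨hab, hff⟩ := h1
  have h2 : p ∣ b * ∑ d ∈ A.divisors, d := by
    by_contra hcon
    rw [Nat.factorization_eq_zero_of_not_dvd hcon] at hlt
    omega
  have h3 : p ∣ ∑ d ∈ A.divisors, d := by
    rcases (Nat.Prime.dvd_mul hp).1 h2 with h | h
    · exact absurd (Dvd.dvd.mul_left h a) hab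
    · exact h
  rw [sig_eq hA0] at h3
  obtain ⟨r, hr, hr2⟩ := (Prime.dvd_finsetProd_iff hp.prime _).1 h3
  have hrp := Nat.prime_of_mem_primeFactors hr
  have hrA := Nat.dvd_of_mem_primeFactors hr
  have hrM : ¬ r ∣ M := fun h => by
    have h4 := Nat.dvd_gcd hrA h
    rw [Nat.Coprime] at hcop
    rw [hcop] at h4
    exact hrp.one_lt.ne' (Nat.dvd_one.1 h4)
  have hrq : r ≠ q := by
    rintro rfl
    exact hrM hqM
  have hrN : r ∈ N.primeFactors :=
    Nat.mem_primeFactors.2 ⟨hrp, by rw [hNM]; exact Dvd.dvd.mul_right hrA M, hN⟩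
  have hre : N.factorization r = A.factorization r := by
    rw [hNM, Nat.factorization_mul hA0 hM0, Finsupp.add_apply,
      Nat.factorization_eq_zero_of_not_dvd hrM, add_zero]
  rw [← hre] at hr2
  have hctl : (p = l₁ ∨ p % l₁ = 1) ∨ (p = l₂ ∨ p % l₂ = 1) := by
    rcases he r hrN hrq with h6 | h6
    · rw [h6] at hr2
      exact Or.inl (dvd_sp hrp.one_lt.le hp hl₁ hr2)
    · rw [h6] at hr2
      exact Or.inr (dvd_sp hrp.one_lt.le hp hl₂ hr2)
  rw [hff]
  unfold ff f0
  by_cases h4 : p % l₁ = 1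
  · rw [if_pos h4, if_pos h4]
  · rw [if_neg h4, if_neg h4]
    by_cases h5 : p % l₂ = 1
    · rw [if_pos h5]
    · exfalso
      have h6 : p = l₁ ∨ p = l₂ := by
        rcases hctl with (h | h) | (h | h)
        · exact Or.inl h
        · exact absurd h h4
        · exact Or.inr h
        · exact absurd h h5
      unfold ff at hff
      rw [if_neg h4, if_neg h5, if_pos h6] at hff
      have := hp.factorization_pos_of_dvd hN (Nat.dvd_of_mem_primeFactors hpN)
      omega

end

/-- **the bound for a finite set of members** -/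
theorem card_S {S : Finset ℕ} {a b l₁ l₂ k K J : ℕ} (hb : 0 < b) (hl₁ : l₁.Prime) (hl₂ : l₂.Prime)
    (hk : 1 ≤ k) (hK1 : 1 ≤ K)
    (h : ∀ N ∈ S, N ≠ 0 ∧ b * ∑ d ∈ N.divisors, d = a * N ∧ N.primeFactors.card ≤ k ∧
      (∀ p, N.factorization p ≤ K) ∧
      (N.primeFactors.filter fun p => p ∣ a * b).card +
        ((a.factorization l₁ + K) + ((a.factorization l₂ + K) + 2)) ≤ J ∧
      ∃ q, q.Prime ∧ q ∣ N ∧
        ∀ p ∈ N.primeFactors, p ≠ q → N.factorization p = l₁ - 1 ∨ N.factorization p = l₂ - 1) :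
    S.card ≤ (1 + k * K) ^ (J + 1) * (K * Nat.primeCounting (k + 1)) ^ (a / b - 1) := by
  rcases S.eq_empty_or_nonempty with hS0 | hS0
  · rw [hS0, card_empty]
    exact Nat.zero_le _
  have ha : 0 < a := by
    obtain ⟨N, hN⟩ := hS0
    obtain ⟨h1, h2, _⟩ := h N hN
    rcases Nat.eq_zero_or_pos a with h3 | h3
    · rw [h3, zero_mul] at h2
      exact absurd h2 (Nat.mul_ne_zero hb.ne' (Pool.Agent.D0H37.CB.sig_pos h1).ne')
    · exact h3
  have hex : ∀ N ∈ S, ∃ q, q.Prime ∧ q ∣ N ∧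
      ∀ p ∈ N.primeFactors, p ≠ q → N.factorization p = l₁ - 1 ∨ N.factorization p = l₂ - 1 :=
    fun N hN => (h N hN).2.2.2.2.2
  choose! q hq1 hq2 hq3 using hex
  have key := card_cg (S := S) (a := a) (b := b) hb (fun N hN => ⟨(h N hN).1, (h N hN).2.1⟩)
    (q := q) (X := fun N => XX l₁ l₂ a b (q N) N)
    (g := fun r e p => ff l₁ l₂ (sp r e) p) (f₀ := fun p => f0 l₁ p l₂) (k := k) (K := K) hk hK1
    (fun N hN => (h N hN).2.2.2.1) hq1
    (fun N hN p hp hpq hpX => by
      by_contra hcon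
      apply hpX
      unfold XX
      rw [mem_filter, mem_erase]
      exact ⟨⟨hpq, hp⟩, Or.inr hcon⟩)
    (fun N hN A M hNM hcop hqM p hp hpM hpq hpX hlt =>
      known hl₁ hl₂ (h N hN).1 (hq1 N hN) (hq3 N hN) hNM hcop hqM hp hpM hpq hpX hlt)
    k le_rfl 1 J (a / b)
  refine le_trans (card_le_card fun N hN => ?_) key
  obtain ⟨hN0, h1, h2, h3, h4, _⟩ := h N hN
  unfold Cg
  rw [mem_filter]
  refine ⟨hN, N, (one_mul N).symm, Nat.coprime_one_left N, hq2 N hN, h2, ?_, ?_⟩
  · exact (card_le_card inter_subset_right).trans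
      ((card_XX hl₁ hl₂ hb ha hN0 h1 (hq2 N hN) (hq1 N hN) h3 (hq3 N hN)).trans h4)
  · have h5 : a < (a / b + 1) * b := by
      have := Nat.lt_div_mul_add hb (a := a)
      nlinarith
    have h6 : b * ∑ d ∈ N.divisors, d < b * ((a / b + 1) * N) := by
      rw [h1]
      calc a * N < (a / b + 1) * b * N := Nat.mul_lt_mul_of_pos_right h5 (Nat.pos_of_ne_zero hN0)
        _ = b * ((a / b + 1) * N) := by ring
    exact lt_of_mul_lt_mul_left h6 (Nat.zero_le _)

end Pool.Agent.D0H37.SP
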