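import Pool.Agent.D0H37.CP.Cf

set_option autoImplicit false

/-!
Decoding with a special prime.
-/

open scoped Classical
open Finset

namespace Pool.Agent.D0H37.SP

open Pool.Agent.D0H37.CB (sig_gt sig_pos sig_le)
open Pool.Agent.D0H37.CP (Cf card_cf)

/-- the members `A M` of `S` with `M` prime to `A`, such that the special prime `q N` divides `M`, with
at most `s` prime factors of `M`, at most `J` of them exceptional, and `σ(M) < (t + 1) M` -/
noncomputable def Cg (S : Finset ℕ) (q : ℕ → ℕ) (X : ℕ → Finset ℕ) (A s J t : ℕ) : Finset ℕ :=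
  S.filter fun N => ∃ M, N = A * M ∧ A.Coprime M ∧ q N ∣ M ∧ M.primeFactors.card ≤ s ∧
    (M.primeFactors ∩ X N).card ≤ J ∧ ∑ d ∈ M.divisors, d < (t + 1) * M

theorem cg_mono {S : Finset ℕ} {q : ℕ → ℕ} {X : ℕ → Finset ℕ} {A s J J' t : ℕ} (h : J ≤ J') :
    Cg S q X A s J t ⊆ Cg S q X A s J' t := by
  intro N hN
  unfold Cg at hN ⊢
  rw [mem_filter] at hN ⊢
  obtain ⟨h1, M, h2, h3, h4, h5, h6, h7⟩ := hN
  exact ⟨h1, M, h2, h3, h4, h5, h6.trans h, h7⟩

/-- the step of the decoding -/
theorem child {S : Finset ℕ} {q : ℕ → ℕ} {X : ℕ → Finset ℕ} {g : ℕ → ℕ → ℕ → ℕ}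
    {A s J N M p k K : ℕ} (hNS : N ∈ S) (hN0 : N ≠ 0)
    (hK : ∀ p, N.factorization p ≤ K) (hq : (q N).Prime)
    (hg : ∀ p ∈ N.primeFactors, p ≠ q N → p ∉ X N →
      N.factorization p = g (q N) (N.factorization (q N)) p)
    (hNM : N = A * M) (hcop : A.Coprime M) (hqM : q N ∣ M) (hMs : M.primeFactors.card ≤ s)
    (hMJ : (M.primeFactors ∩ X N).card ≤ J)
    (hk : ∑ d ∈ M.divisors, d ≤ (k + 1) * M) (hp : p.Prime) (hpM : p ∣ M) :
    ∃ e ∈ Icc 1 K, e = N.factorization p ∧
      ((p = q N ∧ N ∈ Cf S (g p e) (A * p ^ e) (s - 1) J k) ∨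
       (p ≠ q N ∧ p ∈ X N ∧ 1 ≤ J ∧ N ∈ Cg S q X (A * p ^ e) (s - 1) (J - 1) k) ∨
       (p ≠ q N ∧ p ∉ X N ∧ N ∈ Cg S q X (A * p ^ e) (s - 1) J k)) := by
  have hM0 : M ≠ 0 := by rintro rfl; simp at hNM; exact hN0 hNM
  have hA0 : A ≠ 0 := by rintro rfl; simp at hNM; exact hN0 hNM
  obtain ⟨e, M', hnd, hM⟩ := Nat.exists_eq_pow_mul_and_not_dvd hM0 p hp.ne_one
  have he : 1 ≤ e := by
    by_contra hcon
    have : e = 0 := by omega
    subst this
    rw [pow_zero, one_mul] at hM
    rw [hM] at hpM
    exact hnd hpM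
  have hM'0 : M' ≠ 0 := by rintro rfl; simp at hM; exact hM0 hM
  have hcp : (p ^ e).Coprime M' := Nat.Coprime.pow_left e ((Nat.Prime.coprime_iff_not_dvd hp).2 hnd)
  have hpf : M.primeFactors = insert p M'.primeFactors := by
    rw [hM, Nat.primeFactors_mul (pow_ne_zero _ hp.ne_zero) hM'0,
      Nat.primeFactors_prime_pow (by omega) hp]
    rfl
  have hpn : p ∉ M'.primeFactors := fun hmem => hnd (Nat.dvd_of_mem_primeFactors hmem)
  have hfac : M.factorization = (p ^ e).factorization + M'.factorization := by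
    rw [hM]
    exact Nat.factorization_mul (pow_ne_zero _ hp.ne_zero) hM'0
  have hfp : M.factorization p = e := by
    rw [hfac, Finsupp.add_apply, hp.factorization_pow, Finsupp.single_eq_same,
      Nat.factorization_eq_zero_of_not_dvd hnd, add_zero]
  have hfq : ∀ r ∈ M'.primeFactors, M.factorization r = M'.factorization r := by
    intro r hr
    have hrp : r ≠ p := by rintro rfl; exact hpn hr
    rw [hfac, Finsupp.add_apply, hp.factorization_pow, Finsupp.single_apply, if_neg (Ne.symm hrp),
      zero_add]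
  have hcard : M'.primeFactors.card ≤ s - 1 := by
    rw [hpf, card_insert_of_notMem hpn] at hMs
    omega
  have hNr : ∀ r ∈ M.primeFactors, N.factorization r = M.factorization r := by
    intro r hr
    have hrp := Nat.prime_of_mem_primeFactors hr
    have hrA : ¬ r ∣ A := fun h => by
      have h1 := Nat.dvd_gcd h (Nat.dvd_of_mem_primeFactors hr)
      rw [Nat.Coprime] at hcop
      rw [hcop] at h1
      exact hrp.one_lt.ne' (Nat.dvd_one.1 h1)
    rw [hNM, Nat.factorization_mul hA0 hM0, Finsupp.add_apply,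
      Nat.factorization_eq_zero_of_not_dvd hrA, zero_add]
  have hpMf : p ∈ M.primeFactors := by rw [hpf]; exact mem_insert_self _ _
  have hNp : N.factorization p = e := (hNr p hpMf).trans hfp
  have hcopA : (A * p ^ e).Coprime M' := by
    apply Nat.Coprime.mul_left _ hcp
    rw [hM] at hcop
    exact Nat.Coprime.coprime_mul_left_right hcop
  have hsig : ∑ d ∈ M'.divisors, d < (k + 1) * M' := by
    have h3 : ∑ d ∈ M.divisors, d = (∑ d ∈ (p ^ e).divisors, d) * ∑ d ∈ M'.divisors, d := by
      rw [hM]
      exact Nat.Coprime.sum_divisors_mul hcp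
    have hpe0 : p ^ e ≠ 0 := pow_ne_zero _ hp.ne_zero
    have hpe1 : p ^ e ≠ 1 := by
      intro h4
      have := Nat.one_lt_pow (by omega : e ≠ 0) hp.one_lt
      omega
    have h4 := sig_gt hpe0 hpe1
    have h5 := sig_pos hM'0
    have h6 : p ^ e * ∑ d ∈ M'.divisors, d < p ^ e * ((k + 1) * M') := by
      calc p ^ e * ∑ d ∈ M'.divisors, d < (∑ d ∈ (p ^ e).divisors, d) * ∑ d ∈ M'.divisors, d :=
            Nat.mul_lt_mul_of_pos_right h4 h5
        _ = ∑ d ∈ M.divisors, d := h3.symm
        _ ≤ (k + 1) * M := hk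
        _ = p ^ e * ((k + 1) * M') := by rw [hM]; ring
    exact lt_of_mul_lt_mul_left h6 (Nat.zero_le _)
  have hNeq : N = A * p ^ e * M' := by rw [hNM, hM, mul_assoc]
  have hsub : M'.primeFactors ⊆ M.primeFactors := by rw [hpf]; exact subset_insert _ _
  refine ⟨e, mem_Icc.2 ⟨he, hNp ▸ hK p⟩, hNp.symm, ?_⟩
  by_cases hpq : p = q N
  · left
    refine ⟨hpq, ?_⟩
    unfold Cf
    rw [mem_filter]
    refine ⟨hNS, M', hNeq, hcopA, hcard, ?_, hsig⟩
    refine le_trans (card_le_card fun r hr => ?_) hMJ
    rw [mem_filter] at hr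
    obtain ⟨hr1, hr2⟩ := hr
    rw [mem_inter]
    refine ⟨hsub hr1, ?_⟩
    by_contra hrX
    apply hr2
    have hrp : r ≠ q N := by
      rintro rfl
      rw [← hpq] at hr1
      exact hpn hr1
    have hrN : r ∈ N.primeFactors := by
      rw [hNM, Nat.primeFactors_mul hA0 hM0]
      exact mem_union_right _ (hsub hr1)
    have h1 := hg r hrN hrp hrX
    rw [← hpq, hNp, hNr r (hsub hr1), hfq r hr1] at h1
    exact h1
  · right
    have hqM' : q N ∣ M' := by
      rw [hM] at hqM
      rcases (Nat.Prime.dvd_mul hq).1 hqM with h | h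
      · exact absurd ((Nat.prime_dvd_prime_iff_eq hq hp).1 (hq.dvd_of_dvd_pow h)).symm hpq
      · exact h
    by_cases hpX : p ∈ X N
    · left
      rw [hpf, insert_inter_of_mem hpX,
        card_insert_of_notMem (by rw [mem_inter]; exact fun h => hpn h.1)] at hMJ
      refine ⟨hpq, hpX, by omega, ?_⟩
      unfold Cg
      rw [mem_filter]
      exact ⟨hNS, M', hNeq, hcopA, hqM', hcard, by omega, hsig⟩
    · right
      rw [hpf, insert_inter_of_notMem hpX] at hMJ
      refine ⟨hpq, hpX, ?_⟩
      unfold Cg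
      rw [mem_filter]
      exact ⟨hNS, M', hNeq, hcopA, hqM', hcard, hMJ, hsig⟩

/-- **the number of the members** -/
theorem card_cg {S : Finset ℕ} {a b : ℕ} (hb : 0 < b)
    (hS : ∀ N ∈ S, N ≠ 0 ∧ b * ∑ d ∈ N.divisors, d = a * N) {q : ℕ → ℕ} {X : ℕ → Finset ℕ}
    {g : ℕ → ℕ → ℕ → ℕ} {f₀ : ℕ → ℕ} {k K : ℕ} (hk : 1 ≤ k) (hK1 : 1 ≤ K)
    (hK : ∀ N ∈ S, ∀ p, N.factorization p ≤ K) (hq : ∀ N ∈ S, (q N).Prime)
    (hg : ∀ N ∈ S, ∀ p ∈ N.primeFactors, p ≠ q N → p ∉ X N →
      N.factorization p = g (q N) (N.factorization (q N)) p)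
    (hf : ∀ N ∈ S, ∀ A M, N = A * M → A.Coprime M → q N ∣ M → ∀ p, p.Prime → p ∣ M → p ≠ q N →
      p ∉ X N → (a * A).factorization p < (b * ∑ d ∈ A.divisors, d).factorization p →
      N.factorization p = f₀ p) :
    ∀ s : ℕ, s ≤ k → ∀ A J t : ℕ,
      (Cg S q X A s J t).card ≤
        (1 + s * K) ^ (J + 1) * (K * Nat.primeCounting (k + 1)) ^ (t - 1) := by
  have hcf := fun (e p : ℕ) => card_cf hb hS (f := g p e) hk (K := K)
    (fun N hN p _ _ => hK N hN p)
  obtain ⟨P, hP⟩ : ∃ P, P = Nat.primeCounting (k + 1) := ⟨_, rfl⟩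
  rw [← hP] at hcf ⊢
  have hP1 : 1 ≤ P := by
    rw [hP]
    have h1 : Nat.primeCounting 2 ≤ Nat.primeCounting (k + 1) :=
      Nat.monotone_primeCounting (by omega)
    have h2 : Nat.primeCounting 2 = 1 := by decide
    omega
  intro s
  induction s with
  | zero =>
    intro _ A J t
    have h1 : Cg S q X A 0 J t = ∅ := by
      rw [eq_empty_iff_forall_notMem]
      intro N hN
      unfold Cg at hN
      rw [mem_filter] at hN
      obtain ⟨hNS, M, h1, _, h3, h4, _, _⟩ := hN
      have h5 : M.primeFactors = ∅ := card_eq_zero.1 (by omega)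
      rw [Nat.primeFactors_eq_empty] at h5
      rcases h5 with h5 | h5
      · rw [h5, mul_zero] at h1
        exact (hS N hNS).1 h1
      · rw [h5] at h3
        exact (hq N hNS).one_lt.ne' (Nat.dvd_one.1 h3)
    rw [h1, card_empty]
    exact Nat.zero_le _
  | succ s ih =>
    intro hs A J t
    have ih' := ih (by omega)
    by_cases hne : (Cg S q X A (s + 1) J t).Nonempty
    · obtain ⟨N0, hN0⟩ := hne
      have hdec : ∀ N ∈ Cg S q X A (s + 1) J t, N ∈ S ∧ N ≠ 0 ∧ ∃ M, N = A * M ∧ A.Coprime M ∧
          q N ∣ M ∧ M.primeFactors.card ≤ s + 1 ∧ (M.primeFactors ∩ X N).card ≤ J ∧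
          ∑ d ∈ M.divisors, d < (t + 1) * M ∧ M ≠ 0 ∧
          (b * ∑ d ∈ A.divisors, d) * ∑ d ∈ M.divisors, d = (a * A) * M := by
        intro N hN
        unfold Cg at hN
        rw [mem_filter] at hN
        obtain ⟨hNS, M, h1, h2, h3, h4, h5, h6⟩ := hN
        obtain ⟨h7, h8⟩ := hS N hNS
        have hM0 : M ≠ 0 := by rintro rfl; simp at h1; exact h7 h1
        refine ⟨hNS, h7, M, h1, h2, h3, h4, h5, h6, hM0, ?_⟩
        rw [h1, Nat.Coprime.sum_divisors_mul h2] at h8
        rw [mul_assoc, mul_assoc, h8]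
      obtain ⟨hN0S, hN00, M0, hNM0, hcop0, hqM0, _, _, hlt0, hM00, heq0⟩ := hdec N0 hN0
      have hA0 : A ≠ 0 := by rintro rfl; simp at hNM0; exact hN00 hNM0
      have hM01 : M0 ≠ 1 := by
        rintro rfl
        exact (hq N0 hN0S).one_lt.ne' (Nat.dvd_one.1 hqM0)
      have hU0 : b * ∑ d ∈ A.divisors, d ≠ 0 :=
        Nat.mul_ne_zero hb.ne' (sig_pos hA0).ne'
      have hV0 : a * A ≠ 0 := by
        intro h
        rw [h, zero_mul] at heq0
        have := Nat.mul_ne_zero hU0 (sig_pos hM00).ne'
        exact this heq0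
      by_cases hdvd : (b * ∑ d ∈ A.divisors, d) ∣ a * A
      · -- the quotient is an integer
        obtain ⟨c, hc⟩ := hdvd
        have hsig : ∀ M : ℕ, (b * ∑ d ∈ A.divisors, d) * ∑ d ∈ M.divisors, d = (a * A) * M →
            ∑ d ∈ M.divisors, d = c * M := by
          intro M hM
          apply Nat.eq_of_mul_eq_mul_left (Nat.pos_of_ne_zero hU0)
          rw [hM, hc, mul_assoc]
        have hM0pos : 0 < M0 := Nat.pos_of_ne_zero hM00
        have hc2 : 2 ≤ c := by
          have h1 := sig_gt hM00 hM01
          rw [hsig M0 heq0] at h1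
          by_contra hcon
          have : c ≤ 1 := by omega
          have := Nat.mul_le_mul_right M0 this
          omega
        have hct : c ≤ t := by
          rw [hsig M0 heq0] at hlt0
          have := lt_of_mul_lt_mul_right hlt0 (Nat.zero_le _)
          omega
        have hsub : Cg S q X A (s + 1) J t ⊆ (Nat.primesBelow (s + 3)).biUnion fun p =>
            (Icc 1 K).biUnion fun e =>
              Cf S (g p e) (A * p ^ e) s J (t - 1) ∪ Cg S q X (A * p ^ e) s J (t - 1) := by
          intro N hN
          obtain ⟨hNS, hN0', M, h1, h2, h3, h4, h5, h6, h7, h8⟩ := hdec N hN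
          have hcM := hsig M h8
          have hex : ∃ p ∈ M.primeFactors, p ≤ s + 2 := by
            by_contra hcon
            push Not at hcon
            have hle := sig_le (Y := s + 2) (by omega) h7 hcon
            rw [hcM] at hle
            have hle2 : c * M * (s + 2) ≤ M * (s + 2 + M.primeFactors.card) := by
              exact_mod_cast hle
            have hMpos : 0 < M := Nat.pos_of_ne_zero h7
            have h9 : M * (c * (s + 2)) ≤ M * (s + 2 + (s + 1)) := by
              calc M * (c * (s + 2)) = c * M * (s + 2) := by ring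
                _ ≤ M * (s + 2 + M.primeFactors.card) := hle2
                _ ≤ M * (s + 2 + (s + 1)) := Nat.mul_le_mul_left _ (by omega)
            have h10 := le_of_mul_le_mul_left h9 hMpos
            have h11 := Nat.mul_le_mul_right (s + 2) hc2
            omega
          obtain ⟨p, hpM, hp2⟩ := hex
          have hpp := Nat.prime_of_mem_primeFactors hpM
          rw [mem_biUnion]
          refine ⟨p, Nat.mem_primesBelow.2 ⟨by omega, hpp⟩, ?_⟩
          have hlt : ∑ d ∈ M.divisors, d ≤ ((t - 1) + 1) * M := by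
            rw [hcM]
            exact Nat.mul_le_mul_right _ (by omega)
          obtain ⟨e, he, _, h⟩ := child hNS hN0' (hK N hNS) (hq N hNS) (hg N hNS) h1 h2 h3 h4 h5 hlt
            hpp (Nat.dvd_of_mem_primeFactors hpM)
          rw [Nat.add_sub_cancel] at h
          rw [mem_biUnion]
          refine ⟨e, he, ?_⟩
          rw [mem_union]
          rcases h with h | h | h
          · exact Or.inl h.2
          · exact Or.inr (cg_mono (Nat.sub_le _ _) h.2.2.2)
          · exact Or.inr h.2.2
        have hcardP : (Nat.primesBelow (s + 3)).card ≤ P := by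
          rw [hP, Nat.primesBelow_card_eq_primeCounting']
          exact Nat.monotone_primeCounting' (by omega)
        have hone : ∀ p e : ℕ,
            (Cf S (g p e) (A * p ^ e) s J (t - 1) ∪ Cg S q X (A * p ^ e) s J (t - 1)).card ≤
            (1 + (s + 1) * K) ^ (J + 1) * (K * P) ^ (t - 1 - 1) := by
          intro p e
          have h1 := hcf e p s (by omega) (A * p ^ e) J (t - 1)
          have h2 := ih' (A * p ^ e) J (t - 1)
          refine (card_union_le _ _).trans ((add_le_add h1 h2).trans ?_)
          have h3 : P ^ (t - 1 - 1) ≤ (K * P) ^ (t - 1 - 1) :=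
            Nat.pow_le_pow_left (Nat.le_mul_of_pos_left P hK1) _
          calc (1 + s * K) ^ J * P ^ (t - 1 - 1) + (1 + s * K) ^ (J + 1) * (K * P) ^ (t - 1 - 1) ≤
                (1 + s * K) ^ J * (K * P) ^ (t - 1 - 1) +
                (1 + s * K) ^ (J + 1) * (K * P) ^ (t - 1 - 1) :=
                Nat.add_le_add_right (Nat.mul_le_mul_left _ h3) _
            _ = (1 + s * K) ^ J * (1 + (1 + s * K)) * (K * P) ^ (t - 1 - 1) := by
                rw [pow_succ]
                ring
            _ ≤ (1 + (s + 1) * K) ^ J * (1 + (s + 1) * K) * (K * P) ^ (t - 1 - 1) := by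
                apply Nat.mul_le_mul_right
                apply Nat.mul_le_mul
                · apply Nat.pow_le_pow_left
                  nlinarith
                · nlinarith
            _ = _ := by rw [pow_succ]
        calc (Cg S q X A (s + 1) J t).card ≤ ∑ p ∈ Nat.primesBelow (s + 3), ∑ e ∈ Icc 1 K,
              (Cf S (g p e) (A * p ^ e) s J (t - 1) ∪
                Cg S q X (A * p ^ e) s J (t - 1)).card :=
              (card_le_card hsub).trans (card_biUnion_le.trans
                (sum_le_sum fun p _ => card_biUnion_le))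
          _ ≤ ∑ _p ∈ Nat.primesBelow (s + 3), ∑ _e ∈ Icc 1 K,
              (1 + (s + 1) * K) ^ (J + 1) * (K * P) ^ (t - 1 - 1) :=
              sum_le_sum fun p _ => sum_le_sum fun e _ => hone p e
          _ = (Nat.primesBelow (s + 3)).card *
              (K * ((1 + (s + 1) * K) ^ (J + 1) * (K * P) ^ (t - 1 - 1))) := by
              rw [sum_const, sum_const, Nat.card_Icc, smul_eq_mul, smul_eq_mul, Nat.add_sub_cancel]
          _ ≤ P * (K * ((1 + (s + 1) * K) ^ (J + 1) * (K * P) ^ (t - 1 - 1))) :=
              Nat.mul_le_mul_right _ hcardP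
          _ = (1 + (s + 1) * K) ^ (J + 1) * (K * P) ^ (t - 1) := by
              have : (K * P) ^ (t - 1) = (K * P) ^ (t - 1 - 1) * (K * P) := by
                rw [← pow_succ]
                congr 1
                omega
              rw [this]
              ring
      · -- a prime is known
        rw [← Nat.factorization_prime_le_iff_dvd hU0 hV0] at hdvd
        push Not at hdvd
        obtain ⟨p, hpp, hlt⟩ := hdvd
        have hsub : Cg S q X A (s + 1) J t ⊆
            ((Icc 1 K).biUnion fun e => Cf S (g p e) (A * p ^ e) s J t) ∪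
            ((if 1 ≤ J then (Icc 1 K).biUnion fun e => Cg S q X (A * p ^ e) s (J - 1) t else ∅) ∪
              Cg S q X (A * p ^ f₀ p) s J t) := by
          intro N hN
          obtain ⟨hNS, hN0', M, h1, h2, h3, h4, h5, h6, h7, h8⟩ := hdec N hN
          have hpM : p ∣ M := by
            have h9 := congrArg (fun n => n.factorization p) h8
            rw [Nat.factorization_mul hU0 (sig_pos h7).ne', Nat.factorization_mul hV0 h7] at h9
            simp only [Finsupp.add_apply] at h9
            by_contra hcon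
            rw [Nat.factorization_eq_zero_of_not_dvd hcon] at h9
            omega
          obtain ⟨e, he, he2, h⟩ := child hNS hN0' (hK N hNS) (hq N hNS) (hg N hNS) h1 h2 h3 h4 h5
            h6.le hpp hpM
          rw [Nat.add_sub_cancel] at h
          rw [mem_union, mem_union]
          rcases h with h | h | h
          · left
            rw [mem_biUnion]
            exact ⟨e, he, h.2⟩
          · right; left
            rw [if_pos h.2.2.1, mem_biUnion]
            exact ⟨e, he, h.2.2.2⟩
          · right; right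
            have h9 := hf N hNS A M h1 h2 h3 p hpp hpM h.1 h.2.1 hlt
            rw [← he2] at h9
            rw [← h9]
            exact h.2.2
        obtain ⟨w, hw⟩ : ∃ w, w = 1 + s * K := ⟨_, rfl⟩
        obtain ⟨B, hB⟩ : ∃ B, B = (K * P) ^ (t - 1) := ⟨_, rfl⟩
        have hPB : P ^ (t - 1) ≤ B := by
          rw [hB]
          exact Nat.pow_le_pow_left (Nat.le_mul_of_pos_left P hK1) _
        have c1 : ((Icc 1 K).biUnion fun e => Cf S (g p e) (A * p ^ e) s J t).card ≤
            K * (w ^ J * B) := by
          refine card_biUnion_le.trans ((sum_le_sum fun e _ =>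
            (hcf e p s (by omega) (A * p ^ e) J t).trans (Nat.mul_le_mul_left _ hPB)).trans ?_)
          rw [sum_const, Nat.card_Icc, smul_eq_mul, Nat.add_sub_cancel, hw]
        have c3 : (Cg S q X (A * p ^ f₀ p) s J t).card ≤ w ^ (J + 1) * B := by
          rw [hw, hB]
          exact ih' _ _ _
        have hw1 : 1 + (s + 1) * K = w + K := by rw [hw]; ring
        rw [hw1, ← hB]
        refine (card_le_card hsub).trans ((card_union_le _ _).trans
          ((Nat.add_le_add_left (card_union_le _ _) _).trans ?_))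
        split_ifs with hJ
        · obtain ⟨j, rfl⟩ : ∃ j, J = j + 1 := ⟨J - 1, by omega⟩
          rw [Nat.add_sub_cancel]
          have c2 : ((Icc 1 K).biUnion fun e => Cg S q X (A * p ^ e) s j t).card ≤
              K * (w ^ (j + 1) * B) := by
            refine card_biUnion_le.trans ((sum_le_sum fun e _ => ih' (A * p ^ e) j t).trans ?_)
            rw [sum_const, Nat.card_Icc, smul_eq_mul, Nat.add_sub_cancel, hw, hB]
          calc _ ≤ K * (w ^ (j + 1) * B) + (K * (w ^ (j + 1) * B) + w ^ (j + 1 + 1) * B) :=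
                add_le_add c1 (add_le_add c2 c3)
            _ = w ^ j * (w * w + 2 * (w * K)) * B := by
                rw [pow_succ, pow_succ]
                ring
            _ ≤ (w + K) ^ j * ((w + K) * (w + K)) * B := by
                apply Nat.mul_le_mul_right
                apply Nat.mul_le_mul
                · exact Nat.pow_le_pow_left (Nat.le_add_right _ _) _
                · nlinarith
            _ = (w + K) ^ (j + 1 + 1) * B := by
                rw [pow_succ, pow_succ]
                ring
        · have hJ0 : J = 0 := by omega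
          subst hJ0
          rw [card_empty]
          calc _ ≤ K * (w ^ 0 * B) + (0 + w ^ (0 + 1) * B) :=
                add_le_add c1 (add_le_add le_rfl c3)
            _ = (w + K) ^ (0 + 1) * B := by ring
    · rw [not_nonempty_iff_eq_empty] at hne
      rw [hne, card_empty]
      exact Nat.zero_le _

end Pool.Agent.D0H37.SP
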